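import Pool.Agent.H132MA.Cases

/-! # MP_6c6cee_co, Q1: a size which is missing below the upper threshold

For `n = 7` and `l = 3` there is a flat maximal antichain of size 14 and none of size 15, while the
threshold `T(7, 3)` is 29. -/

set_option autoImplicit false

open Finset

namespace Pool.Agent.Results.MP_6c6cee_co.MissingSize

open Pool.Agent.H132MA

/-- `A` is a maximal antichain of the lattice of all subsets of `Fin n`, and all its members have
`l` or `l + 1` elements -/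
def IsFlatMax (n l : ℕ) (A : Finset (Finset (Fin n))) : Prop :=
  (∀ a ∈ A, a.card = l ∨ a.card = l + 1) ∧ (∀ a ∈ A, ∀ b ∈ A, a ⊆ b → a = b) ∧
    ∀ s : Finset (Fin n), s ∉ A → ∃ a ∈ A, a ⊆ s ∨ s ⊆ a

/-- the set of the sizes of these antichains -/
def S (n l : ℕ) : Set ℕ := {m | ∃ A : Finset (Finset (Fin n)), IsFlatMax n l A ∧ A.card = m}

/-- the threshold `T(n, l)` -/
def T (n l : ℕ) : ℤ := (n.choose (l + 1) : ℤ) - ((n : ℤ) - l - 1) * ⌈((n : ℚ) - l) / 2⌉

/-- the lines of the Fano plane and their complements -/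
def fano : Finset (Finset (Fin 7)) :=
  {{0, 1, 2}, {0, 3, 4}, {0, 5, 6}, {1, 3, 5}, {1, 4, 6}, {2, 3, 6}, {2, 4, 5},
    {3, 4, 5, 6}, {1, 2, 5, 6}, {1, 2, 3, 4}, {0, 2, 4, 6}, {0, 2, 3, 5}, {0, 1, 4, 5}, {0, 1, 3, 6}}

theorem fano_ok : IsFlatMax 7 3 fano := by
  unfold IsFlatMax
  decide +kernel

theorem no_fifteen : 15 ∉ S 7 3 := by
  rintro ⟨A, ⟨h1, h2, h3⟩, hc⟩
  set X := A.filter fun a => a.card = 3 with hX
  set F := A.filter fun a => a.card = 4 with hF
  have hXF : X.card + F.card = 15 := by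
    rw [← hc, ← card_filter_add_card_filter_not (s := A) (fun a => a.card = 3), hX, hF]
    congr 2
    ext a
    simp only [mem_filter]
    constructor
    · rintro ⟨ha, ha2⟩
      exact ⟨ha, by omega⟩
    · rintro ⟨ha, ha2⟩
      exact ⟨ha, by rcases h1 a ha with h | h <;> omega⟩
  have hX3 : X ⊆ T3 := fun a ha => mem_powersetCard.2 ⟨subset_univ _, (mem_filter.1 ha).2⟩
  have hF4 : F ⊆ T4 := fun a ha => mem_powersetCard.2 ⟨subset_univ _, (mem_filter.1 ha).2⟩
  have hnot : ∀ t ∈ X, ∀ u ∈ F, ¬ t ⊆ u := by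
    intro t ht u hu htu
    have e := h2 t (mem_filter.1 ht).1 u (mem_filter.1 hu).1 htu
    have e1 := (mem_filter.1 ht).2
    have e2 := (mem_filter.1 hu).2
    rw [e] at e1
    omega
  have up : (T4.filter fun U => ∃ t ∈ X, t ⊆ U) = T4 \ F := by
    ext U
    rw [mem_filter, mem_sdiff]
    refine and_congr_right fun hU => ⟨?_, fun hUF => ?_⟩
    · rintro ⟨t, ht, htU⟩ hUF
      exact hnot t ht U hUF htU
    · have hUc : U.card = 4 := (mem_powersetCard.1 hU).2
      have hUA : U ∉ A := fun h => hUF (mem_filter.2 ⟨h, hUc⟩)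
      obtain ⟨a, ha, hau⟩ := h3 U hUA
      rcases h1 a ha with hac | hac
      · rcases hau with h | h
        · exact ⟨a, mem_filter.2 ⟨ha, hac⟩, h⟩
        · have := card_le_card h
          omega
      · exfalso
        rcases hau with h | h
        · exact hUA (eq_of_subset_of_card_le h (by omega) ▸ ha)
        · exact hUA ((eq_of_subset_of_card_le h (by omega)).symm ▸ ha)
  have dn : (T3.filter fun t => ∃ U ∈ F, t ⊆ U) = T3 \ X := by
    ext t
    rw [mem_filter, mem_sdiff]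
    refine and_congr_right fun ht => ⟨?_, fun htX => ?_⟩
    · rintro ⟨U, hU, htU⟩ htX
      exact hnot t htX U hU htU
    · have htc : t.card = 3 := (mem_powersetCard.1 ht).2
      have htA : t ∉ A := fun h => htX (mem_filter.2 ⟨h, htc⟩)
      obtain ⟨a, ha, hau⟩ := h3 t htA
      rcases h1 a ha with hac | hac
      · exfalso
        rcases hau with h | h
        · exact htA (eq_of_subset_of_card_le h (by omega) ▸ ha)
        · exact htA ((eq_of_subset_of_card_le h (by omega)).symm ▸ ha)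
      · rcases hau with h | h
        · have := card_le_card h
          omega
        · exact ⟨a, mem_filter.2 ⟨ha, hac⟩, h⟩
  have cup : (T4.filter fun U => ∃ t ∈ X, t ⊆ U).card = 35 - F.card := by
    rw [up, card_sdiff_of_subset hF4, card_T4]
  have cdn : (T3.filter fun t => ∃ U ∈ F, t ⊆ U).card = 35 - X.card := by
    rw [dn, card_sdiff_of_subset hX3, card_T3]
  have b1 : (T4.filter fun U => ∃ t ∈ X, t ⊆ U).card ≤ X.card * 4 := by
    refine (card_le_card ?_).trans
      (card_biUnion_le_card_mul X (fun t => T4.filter fun U => t ⊆ U) 4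
        fun t ht => up_four t (hX3 ht))
    intro U hU
    obtain ⟨hU1, t, ht, htU⟩ := mem_filter.1 hU
    exact mem_biUnion.2 ⟨t, ht, mem_filter.2 ⟨hU1, htU⟩⟩
  have b2 : (T3.filter fun t => ∃ U ∈ F, t ⊆ U).card ≤ F.card * 4 := by
    refine (card_le_card ?_).trans
      (card_biUnion_le_card_mul F (fun U => T3.filter fun t => t ⊆ U) 4
        fun U hU => down_four U (hF4 hU))
    intro t ht
    obtain ⟨ht1, U, hU, htU⟩ := mem_filter.1 ht
    exact mem_biUnion.2 ⟨U, hU, mem_filter.2 ⟨ht1, htU⟩⟩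
  rw [cup] at b1
  rw [cdn] at b2
  have hcases : X.card = 7 ∧ F.card = 8 ∨ X.card = 8 ∧ F.card = 7 := by omega
  rcases hcases with ⟨hx, hf⟩ | ⟨hx, hf⟩
  · exact case_a X hX3 hx (by rw [cup, hf])
  · exact case_b F hF4 hf (by rw [cdn, hx])

theorem result : ∃ n l m : ℕ, 3 ≤ l ∧ (l : ℤ) ≤ ⌈(n : ℚ) / 2⌉ ∧ (∃ m₀ ∈ S n l, m₀ ≤ m) ∧
    (m : ℤ) ≤ T n l ∧ m ∉ S n l := by
  refine ⟨7, 3, 15, le_rfl, ?_, ⟨14, ⟨fano, fano_ok, by decide +kernel⟩, by norm_num⟩, ?_,
    no_fifteen⟩
  · have : ⌈((7 : ℕ) : ℚ) / 2⌉ = 4 := by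
      rw [Int.ceil_eq_iff]
      norm_num
    rw [this]
    norm_num
  · have h : ⌈(((7 : ℕ) : ℚ) - (3 : ℕ)) / 2⌉ = 2 := by
      rw [Int.ceil_eq_iff]
      norm_num
    unfold T
    rw [h]
    norm_num [Nat.choose]

end Pool.Agent.Results.MP_6c6cee_co.MissingSize
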